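import Pool.Agent.H87.AX.Targets4
import Pool.Agent.H13.SN.BO1

/-! # BX. Pointwise Bochner formula without any equation -/

set_option autoImplicit false

namespace Pool.Agent.H72.AX

open Pool.Agent.H87.SN Pool.Agent.H87.SH Pool.Agent.H87.AX
open Pool.Agent.H13.SN (smooth_fderiv smooth_app diffAt fderiv_app symm2 symm3 dq)
open MeasureTheory Metric Set Filter Topology
open scoped ContDiff RealInnerProductSpace ENNReal

theorem lap_smooth {n m : ℕ} {U : Set (E n)} {u : E n → E m} (hU : IsOpen U)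
    (hu : ContDiffOn ℝ ∞ u U) : ContDiffOn ℝ ∞ (lap u) U := by
  have h2 := smooth_fderiv hU (smooth_fderiv hU hu)
  exact ContDiffOn.sum (fun i _ => smooth_app (smooth_app h2 _) _)

theorem pf_BX : T_BX := by
  intro n m U u hU hu
  have h1 := smooth_fderiv hU hu
  have h2 := smooth_fderiv hU h1
  have h3 := smooth_fderiv hU h2
  have hl0 := lap_smooth hU hu
  have hq : ContDiffOn ℝ ∞ (en u) U := by
    unfold en nsq
    exact ContDiffOn.sum (fun i _ => (smooth_app h1 (bv i)).norm_sq ℝ)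
  refine ⟨hq, fun i => (smooth_app h1 (bv i)).inner ℝ hl0, fun x hx => ?_⟩
  have hqd : ContDiffOn ℝ ∞ (fderiv ℝ (fun y => nsq (fderiv ℝ u y))) U := smooth_fderiv hU hq
  have hterm : ∀ k : Fin n, fderiv ℝ (fderiv ℝ (fun y => nsq (fderiv ℝ u y))) x (bv k) (bv k) =
      ∑ i : Fin n, 2 * (⟪fderiv ℝ u x (bv i),
          fderiv ℝ (fderiv ℝ (fderiv ℝ u)) x (bv k) (bv k) (bv i)⟫ +
        ‖fderiv ℝ (fderiv ℝ u) x (bv k) (bv i)‖ ^ 2) := by
    intro k
    rw [← fderiv_app (diffAt hU hqd hx) (bv k) (bv k)]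
    have he : (fun y => fderiv ℝ (fun y => nsq (fderiv ℝ u y)) y (bv k)) =ᶠ[𝓝 x]
        fun y => ∑ i : Fin n,
          2 * ⟪fderiv ℝ u y (bv i), fderiv ℝ (fderiv ℝ u) y (bv k) (bv i)⟫ := by
      filter_upwards [hU.mem_nhds hx] with y hy
      exact dq hU hu hy (bv k)
    have hd : ∀ i : Fin n, DifferentiableAt ℝ (fun y => fderiv ℝ u y (bv i)) x :=
      fun i => diffAt hU (smooth_app h1 _) hx
    have hd2 : ∀ i : Fin n,
        DifferentiableAt ℝ (fun y => fderiv ℝ (fderiv ℝ u) y (bv k) (bv i)) x :=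
      fun i => diffAt hU (smooth_app (smooth_app h2 _) _) hx
    rw [he.fderiv_eq, fderiv_fun_sum (fun i _ => ((hd i).inner ℝ (hd2 i)).const_mul 2),
      sum_apply]
    refine Finset.sum_congr rfl (fun i _ => ?_)
    rw [fderiv_const_mul ((hd i).inner ℝ (hd2 i)), smul_apply,
      fderiv_inner_apply ℝ (hd i) (hd2 i), fderiv_app (diffAt hU h1 hx),
      fderiv_app (f := fun y => fderiv ℝ (fderiv ℝ u) y (bv k))
        (diffAt hU (smooth_app h2 _) hx), fderiv_app (diffAt hU h2 hx),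
      real_inner_self_eq_norm_sq, smul_eq_mul]
  have hlap : ∀ i : Fin n, fderiv ℝ (lap u) x (bv i) =
      ∑ k : Fin n, fderiv ℝ (fderiv ℝ (fderiv ℝ u)) x (bv i) (bv k) (bv k) := by
    intro i
    have hl : lap u = fun y => ∑ k : Fin n, fderiv ℝ (fderiv ℝ u) y (bv k) (bv k) := rfl
    rw [hl, fderiv_fun_sum (fun k _ => diffAt hU (smooth_app (smooth_app h2 _) _) hx),
      sum_apply]
    refine Finset.sum_congr rfl (fun k _ => ?_)
    rw [fderiv_app (f := fun y => fderiv ℝ (fderiv ℝ u) y (bv k))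
        (diffAt hU (smooth_app h2 _) hx), fderiv_app (diffAt hU h2 hx)]
  have hlapd : DifferentiableAt ℝ (lap u) x := diffAt hU hl0 hx
  have hprod : ∀ i : Fin n, ⟪fderiv ℝ u x (bv i), fderiv ℝ (lap u) x (bv i)⟫ +
      ⟪fderiv ℝ (fderiv ℝ u) x (bv i) (bv i), lap u x⟫ =
      fderiv ℝ (fun y => ⟪fderiv ℝ u y (bv i), lap u y⟫) x (bv i) := by
    intro i
    rw [fderiv_inner_apply ℝ (diffAt hU (smooth_app h1 _) hx) hlapd,
      fderiv_app (diffAt hU h1 hx)]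
  have hsum : ∑ i : Fin n, ⟪fderiv ℝ u x (bv i), fderiv ℝ (lap u) x (bv i)⟫ =
      ∑ i : Fin n, fderiv ℝ (fun y => ⟪fderiv ℝ u y (bv i), lap u y⟫) x (bv i) -
        ‖lap u x‖ ^ 2 := by
    have hs := Finset.sum_congr (s₁ := Finset.univ) rfl (fun i _ => hprod i)
    rw [Finset.sum_add_distrib, ← sum_inner] at hs
    have hl : ∑ i : Fin n, fderiv ℝ (fderiv ℝ u) x (bv i) (bv i) = lap u x := rfl
    rw [hl, real_inner_self_eq_norm_sq] at hs
    linarith
  have hL : lap (en u) x =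
      ∑ k : Fin n, fderiv ℝ (fderiv ℝ (fun y => nsq (fderiv ℝ u y))) x (bv k) (bv k) := rfl
  rw [hL, Finset.sum_congr rfl (fun k _ => hterm k)]
  have hswap : ∀ k i : Fin n, fderiv ℝ (fderiv ℝ (fderiv ℝ u)) x (bv k) (bv k) (bv i) =
      fderiv ℝ (fderiv ℝ (fderiv ℝ u)) x (bv i) (bv k) (bv k) := by
    intro k i
    rw [symm3 hU hu hx (bv k) (bv k) (bv i)]
    have := symm2 hU h1 hx (bv k) (bv i)
    rw [this]
  have h4 : ∑ i : Fin n, ⟪fderiv ℝ u x (bv i), fderiv ℝ (lap u) x (bv i)⟫ =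
      ∑ k : Fin n, ∑ i : Fin n, ⟪fderiv ℝ u x (bv i),
        fderiv ℝ (fderiv ℝ (fderiv ℝ u)) x (bv k) (bv k) (bv i)⟫ := by
    rw [Finset.sum_comm]
    refine Finset.sum_congr rfl (fun i _ => ?_)
    rw [hlap i, inner_sum]
    refine Finset.sum_congr rfl (fun k _ => ?_)
    rw [hswap k i]
  have h5 : ∀ k : Fin n, ∑ i : Fin n, 2 * (⟪fderiv ℝ u x (bv i),
          fderiv ℝ (fderiv ℝ (fderiv ℝ u)) x (bv k) (bv k) (bv i)⟫ +
        ‖fderiv ℝ (fderiv ℝ u) x (bv k) (bv i)‖ ^ 2) =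
      2 * ∑ i : Fin n, ⟪fderiv ℝ u x (bv i),
          fderiv ℝ (fderiv ℝ (fderiv ℝ u)) x (bv k) (bv k) (bv i)⟫ +
        2 * ∑ i : Fin n, ‖fderiv ℝ (fderiv ℝ u) x (bv k) (bv i)‖ ^ 2 := by
    intro k
    rw [← Finset.mul_sum, Finset.sum_add_distrib]
    ring
  rw [Finset.sum_congr rfl (fun k _ => h5 k), Finset.sum_add_distrib, ← Finset.mul_sum,
    ← Finset.mul_sum, ← h4, hsum]
  have h6 : ∑ k : Fin n, ∑ i : Fin n, ‖fderiv ℝ (fderiv ℝ u) x (bv k) (bv i)‖ ^ 2 = hsq u x :=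
    rfl
  rw [h6]
  ring

end Pool.Agent.H72.AX
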