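import Pool.Agent.H72.AX.BX
import Pool.Agent.H39.SN.HES

/-! # GBO. Integral identity of Bochner, as an inequality -/

set_option autoImplicit false

namespace Pool.Agent.H72.AX

open Pool.Agent.H87.SN Pool.Agent.H87.SH Pool.Agent.H87.AX
open Pool.Agent.H13.SN (smooth_fderiv smooth_app diffAt fderiv_app symm2 symm3 dq)
open Pool.Agent.H39.SN (vec norm_vec_sq apply_vec vec_eq_sum int_mul cont_mul nsq_nonneg)
open MeasureTheory Metric Set Filter Topology
open scoped ContDiff RealInnerProductSpace ENNReal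

theorem en_deriv_le {n m : ℕ} {U : Set (E n)} {u : E n → E m} (hU : IsOpen U)
    (hu : ContDiffOn ℝ ∞ u U) {x : E n} (hx : x ∈ U) (v : E n) :
    |fderiv ℝ (en u) x v| ≤ 2 * ‖v‖ * Real.sqrt (en u x) * Real.sqrt (hsq u x) := by
  have e : en u = fun y => nsq (fderiv ℝ u y) := rfl
  rw [e, dq hU hu hx v, ← Finset.mul_sum, abs_mul, abs_of_pos (by norm_num : (0 : ℝ) < 2)]
  set D := fderiv ℝ u x with hD
  set D2 := fderiv ℝ (fderiv ℝ u) x with hD2
  have hbv : v = ∑ k : Fin n, v k • (bv k : E n) := by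
    ext j
    simp only [bv, WithLp.ofLp_sum, WithLp.ofLp_smul, Finset.sum_apply, Pi.smul_apply,
      PiLp.ofLp_single, Pi.single_apply, smul_eq_mul, mul_ite, mul_one, mul_zero,
      Finset.sum_ite_eq, Finset.mem_univ, if_true]
  have hv : ∀ i : Fin n, ‖D2 v (bv i)‖ ^ 2 ≤ ‖v‖ ^ 2 * ∑ k : Fin n, ‖D2 (bv k) (bv i)‖ ^ 2 := by
    intro i
    have e1 : D2 v (bv i) = ∑ k : Fin n, v k • D2 (bv k) (bv i) := by
      conv_lhs => rw [hbv]
      rw [map_sum, sum_apply]
      refine Finset.sum_congr rfl (fun k _ => ?_)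
      rw [map_smul, smul_apply]
    have e2 : ‖D2 v (bv i)‖ ≤ ∑ k : Fin n, |v k| * ‖D2 (bv k) (bv i)‖ := by
      rw [e1]
      refine (norm_sum_le _ _).trans (Finset.sum_le_sum (fun k _ => ?_))
      rw [norm_smul, Real.norm_eq_abs]
    have e3 : (∑ k : Fin n, |v k| * ‖D2 (bv k) (bv i)‖) ^ 2 ≤
        (∑ k : Fin n, |v k| ^ 2) * ∑ k : Fin n, ‖D2 (bv k) (bv i)‖ ^ 2 :=
      Finset.sum_mul_sq_le_sq_mul_sq _ _ _
    have e4 : ∑ k : Fin n, |v k| ^ 2 = ‖v‖ ^ 2 := by
      rw [EuclideanSpace.norm_sq_eq]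
      rfl
    calc ‖D2 v (bv i)‖ ^ 2 ≤ (∑ k : Fin n, |v k| * ‖D2 (bv k) (bv i)‖) ^ 2 :=
          pow_le_pow_left₀ (norm_nonneg _) e2 2
      _ ≤ _ := by rw [← e4]; exact e3
  have hA : ∑ i : Fin n, ‖D2 v (bv i)‖ ^ 2 ≤ ‖v‖ ^ 2 * hsq u x := by
    calc ∑ i : Fin n, ‖D2 v (bv i)‖ ^ 2
        ≤ ∑ i : Fin n, ‖v‖ ^ 2 * ∑ k : Fin n, ‖D2 (bv k) (bv i)‖ ^ 2 :=
          Finset.sum_le_sum (fun i _ => hv i)
      _ = ‖v‖ ^ 2 * hsq u x := by
          rw [← Finset.mul_sum, Finset.sum_comm]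
          rfl
  have hB : |∑ i : Fin n, ⟪D (bv i), D2 v (bv i)⟫| ≤
      ∑ i : Fin n, ‖D (bv i)‖ * ‖D2 v (bv i)‖ :=
    (Finset.abs_sum_le_sum_abs _ _).trans
      (Finset.sum_le_sum (fun i _ => abs_real_inner_le_norm _ _))
  have hC : ∑ i : Fin n, ‖D (bv i)‖ * ‖D2 v (bv i)‖ ≤
      Real.sqrt (∑ i : Fin n, ‖D (bv i)‖ ^ 2) * Real.sqrt (∑ i : Fin n, ‖D2 v (bv i)‖ ^ 2) :=
    Real.sum_mul_le_sqrt_mul_sqrt _ _ _
  have hE : Real.sqrt (∑ i : Fin n, ‖D2 v (bv i)‖ ^ 2) ≤ ‖v‖ * Real.sqrt (hsq u x) := by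
    calc Real.sqrt (∑ i : Fin n, ‖D2 v (bv i)‖ ^ 2) ≤ Real.sqrt (‖v‖ ^ 2 * hsq u x) :=
          Real.sqrt_le_sqrt hA
      _ = ‖v‖ * Real.sqrt (hsq u x) := by
          rw [Real.sqrt_mul (sq_nonneg _), Real.sqrt_sq (norm_nonneg _)]
  have hF : Real.sqrt (∑ i : Fin n, ‖D (bv i)‖ ^ 2) = Real.sqrt (nsq D) := rfl
  calc 2 * |∑ i : Fin n, ⟪D (bv i), D2 v (bv i)⟫|
      ≤ 2 * (Real.sqrt (nsq D) * (‖v‖ * Real.sqrt (hsq u x))) := by
        apply mul_le_mul_of_nonneg_left _ (by norm_num)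
        refine (hB.trans hC).trans ?_
        rw [hF]
        exact mul_le_mul_of_nonneg_left hE (Real.sqrt_nonneg _)
    _ = 2 * ‖v‖ * Real.sqrt (nsq D) * Real.sqrt (hsq u x) := by ring

theorem norm_app_le {n m : ℕ} (L : E n →L[ℝ] E m) (v : E n) :
    ‖L v‖ ≤ ‖v‖ * Real.sqrt (nsq L) := by
  have hbv : v = ∑ k : Fin n, v k • (bv k : E n) := by
    ext j
    simp only [bv, WithLp.ofLp_sum, WithLp.ofLp_smul, Finset.sum_apply, Pi.smul_apply,
      PiLp.ofLp_single, Pi.single_apply, smul_eq_mul, mul_ite, mul_one, mul_zero,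
      Finset.sum_ite_eq, Finset.mem_univ, if_true]
  have e1 : L v = ∑ k : Fin n, v k • L (bv k) := by
    conv_lhs => rw [hbv]
    rw [map_sum]
    refine Finset.sum_congr rfl (fun k _ => ?_)
    rw [map_smul]
  have e2 : ‖L v‖ ≤ ∑ k : Fin n, |v k| * ‖L (bv k)‖ := by
    rw [e1]
    refine (norm_sum_le _ _).trans (Finset.sum_le_sum (fun k _ => ?_))
    rw [norm_smul, Real.norm_eq_abs]
  have e3 := Real.sum_mul_le_sqrt_mul_sqrt Finset.univ (fun k : Fin n => |v k|)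
    (fun k : Fin n => ‖L (bv k)‖)
  have e4 : Real.sqrt (∑ k : Fin n, |v k| ^ 2) = ‖v‖ := by
    have h : ∑ k : Fin n, |v k| ^ 2 = ‖v‖ ^ 2 := by
      rw [EuclideanSpace.norm_sq_eq]
      rfl
    rw [h, Real.sqrt_sq (norm_nonneg _)]
  rw [e4] at e3
  exact e2.trans e3

theorem sqrt_gsq {n : ℕ} (a : E n → ℝ) (x : E n) :
    Real.sqrt (gsq a x) = ‖vec (fderiv ℝ a x)‖ := by
  have h : gsq a x = ‖vec (fderiv ℝ a x)‖ ^ 2 := (norm_vec_sq _).symm
  rw [h, Real.sqrt_sq (norm_nonneg _)]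

theorem pf_GBO (hIBP : T_IBP) : T_GBO := by
  intro n m U u a hU hu ha hac has ha0
  obtain ⟨hq, hg, hbx⟩ := pf_BX n m U u hU hu
  have h1 := smooth_fderiv hU hu
  have h2 := smooth_fderiv hU h1
  have hl := lap_smooth hU hu
  have hda : Continuous (fderiv ℝ a) := ha.continuous_fderiv (by norm_num)
  have hdi : ∀ v : E n, Continuous (fun x => fderiv ℝ a x v) := fun v =>
    hda.clm_apply continuous_const
  have hdic : ∀ v : E n, HasCompactSupport (fun x => fderiv ℝ a x v) := fun v => by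
    refine (hac.fderiv ℝ).comp_left (g := fun L : E n →L[ℝ] ℝ => L v) ?_
    rfl
  have hdis : ∀ v : E n, tsupport (fun x => fderiv ℝ a x v) ⊆ U := fun v => by
    refine (closure_mono ?_).trans ((tsupport_fderiv_subset ℝ).trans has)
    intro x hx hx0
    apply hx
    have : fderiv ℝ a x = 0 := hx0
    simp [this]
  -- continuity on `U`
  have chsq : ContinuousOn (hsq u) U := by
    unfold hsq
    exact continuousOn_finset_sum _ fun i _ => continuousOn_finset_sum _ fun j _ =>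
      ((smooth_app (smooth_app h2 _) _).continuousOn.norm).pow 2
  have clap : ContinuousOn (fun x => ‖lap u x‖ ^ 2) U := (hl.continuousOn.norm).pow 2
  have cen : ContinuousOn (en u) U := hq.continuousOn
  have hqd := smooth_fderiv hU hq
  have hax : ∀ x, x ∉ U → a x = 0 := fun x hx => image_eq_zero_of_notMem_tsupport fun h => hx (has h)
  have hdx : ∀ x, x ∉ U → fderiv ℝ a x = 0 := fun x hx =>
    fderiv_of_notMem_tsupport ℝ fun h => hx (has h)
  have hcg : ∀ i : Fin n, ContinuousOn (fun y => ⟪fderiv ℝ u y (bv i), lap u y⟫) U :=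
    fun i => (hg i).continuousOn
  have hce : ∀ i : Fin n, ContinuousOn (fun y => fderiv ℝ (en u) y (bv i)) U :=
    fun i => (smooth_app hqd _).continuousOn
  -- the pointwise identity
  have hpt : ∀ x, a x * hsq u x = a x * ‖lap u x‖ ^ 2 +
      ((1 / 2) * ∑ i : Fin n, a x * fderiv ℝ (fun y => fderiv ℝ (en u) y (bv i)) x (bv i) -
        ∑ i : Fin n, a x * fderiv ℝ (fun y => ⟪fderiv ℝ u y (bv i), lap u y⟫) x (bv i)) := by
    intro x
    by_cases hx : x ∈ U
    · have h := hbx x hx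
      have h' : lap (en u) x = ∑ i : Fin n, fderiv ℝ (fun y => fderiv ℝ (en u) y (bv i)) x (bv i) := by
        unfold lap
        exact Finset.sum_congr rfl fun i _ => (fderiv_app (diffAt hU hqd hx) (bv i) (bv i)).symm
      rw [← Finset.mul_sum, ← Finset.mul_sum, ← h', h]
      ring
    · rw [hax x hx]
      simp
  have hi1 : Integrable fun x => a x * ‖lap u x‖ ^ 2 :=
    int_mul hU ha.continuous hac has clap
  have hi2 : ∀ i : Fin n, Integrable fun x =>
      a x * fderiv ℝ (fun y => fderiv ℝ (en u) y (bv i)) x (bv i) := fun i =>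
    int_mul hU ha.continuous hac has (smooth_app (smooth_fderiv hU (smooth_app hqd _)) _).continuousOn
  have hi3 : ∀ i : Fin n, Integrable fun x =>
      a x * fderiv ℝ (fun y => ⟪fderiv ℝ u y (bv i), lap u y⟫) x (bv i) := fun i =>
    int_mul hU ha.continuous hac has (smooth_app (smooth_fderiv hU (hg i)) _).continuousOn
  have hj1 : ∀ i : Fin n, Integrable fun x => fderiv ℝ a x (bv i) * fderiv ℝ (en u) x (bv i) :=
    fun i => int_mul hU (hdi _) (hdic _) (hdis _) (hce i)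
  have hj2 : ∀ i : Fin n, Integrable fun x =>
      fderiv ℝ a x (bv i) * ⟪fderiv ℝ u x (bv i), lap u x⟫ :=
    fun i => int_mul hU (hdi _) (hdic _) (hdis _) (hcg i)
  have hp1 : ∀ i : Fin n, ∫ x, a x * fderiv ℝ (fun y => fderiv ℝ (en u) y (bv i)) x (bv i) =
      - ∫ x, fderiv ℝ a x (bv i) * fderiv ℝ (en u) x (bv i) := fun i =>
    hIBP.2 n U a _ (bv i) hU ha hac has ((smooth_app hqd _).of_le (by simp))
  have hp2 : ∀ i : Fin n, ∫ x, a x * fderiv ℝ (fun y => ⟪fderiv ℝ u y (bv i), lap u y⟫) x (bv i) =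
      - ∫ x, fderiv ℝ a x (bv i) * ⟪fderiv ℝ u x (bv i), lap u x⟫ := fun i =>
    hIBP.2 n U a _ (bv i) hU ha hac has ((hg i).of_le (by simp))
  have hid : ∫ x, a x * hsq u x = (∫ x, a x * ‖lap u x‖ ^ 2) +
      ∫ x, (∑ i : Fin n, fderiv ℝ a x (bv i) * ⟪fderiv ℝ u x (bv i), lap u x⟫ -
        (1 / 2) * ∑ i : Fin n, fderiv ℝ a x (bv i) * fderiv ℝ (en u) x (bv i)) := by
    have k2 : Integrable fun x => (1 / 2) *
        ∑ i : Fin n, a x * fderiv ℝ (fun y => fderiv ℝ (en u) y (bv i)) x (bv i) :=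
      (integrable_finset_sum _ fun i _ => hi2 i).const_mul _
    have k3 : Integrable fun x =>
        ∑ i : Fin n, a x * fderiv ℝ (fun y => ⟪fderiv ℝ u y (bv i), lap u y⟫) x (bv i) :=
      integrable_finset_sum _ fun i _ => hi3 i
    have k23 : Integrable fun x => (1 / 2) *
        ∑ i : Fin n, a x * fderiv ℝ (fun y => fderiv ℝ (en u) y (bv i)) x (bv i) -
        ∑ i : Fin n, a x * fderiv ℝ (fun y => ⟪fderiv ℝ u y (bv i), lap u y⟫) x (bv i) :=
      k2.sub k3
    have l1 : Integrable fun x => (1 / 2) *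
        ∑ i : Fin n, fderiv ℝ a x (bv i) * fderiv ℝ (en u) x (bv i) :=
      (integrable_finset_sum _ fun i _ => hj1 i).const_mul _
    have l2 : Integrable fun x =>
        ∑ i : Fin n, fderiv ℝ a x (bv i) * ⟪fderiv ℝ u x (bv i), lap u x⟫ :=
      integrable_finset_sum _ fun i _ => hj2 i
    rw [integral_congr_ae (Filter.Eventually.of_forall hpt)]
    rw [integral_add hi1 k23, integral_sub k2 k3, integral_sub l2 l1]
    rw [integral_const_mul, integral_const_mul, integral_finset_sum _ fun i _ => hi2 i,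
      integral_finset_sum _ fun i _ => hi3 i, integral_finset_sum _ fun i _ => hj1 i,
      integral_finset_sum _ fun i _ => hj2 i, Finset.sum_congr rfl fun i _ => hp1 i,
      Finset.sum_congr rfl fun i _ => hp2 i, Finset.sum_neg_distrib, Finset.sum_neg_distrib]
    ring
  rw [hid]
  refine add_le_add_right ?_ _
  have hsgc : Continuous (fun x => Real.sqrt (gsq a x)) := by
    unfold gsq nsq
    exact (continuous_finset_sum _ fun i _ => ((hdi _).norm).pow 2).sqrt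
  have hsgs : HasCompactSupport (fun x => Real.sqrt (gsq a x)) := by
    refine (hac.fderiv ℝ).comp_left (g := fun L : E n →L[ℝ] ℝ => Real.sqrt (nsq L)) ?_
    simp [nsq]
  have hsgt : tsupport (fun x => Real.sqrt (gsq a x)) ⊆ U := by
    refine (closure_mono ?_).trans ((tsupport_fderiv_subset ℝ).trans has)
    intro x hx hx0
    apply hx
    have h0 : fderiv ℝ a x = 0 := hx0
    simp [gsq, nsq, h0]
  refine integral_mono ((integrable_finset_sum _ fun i _ => hj2 i).sub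
    ((integrable_finset_sum _ fun i _ => hj1 i).const_mul _)) ?_ ?_
  · exact int_mul hU hsgc hsgs hsgt
      (cen.sqrt.mul (chsq.sqrt.add hl.continuousOn.norm))
  · intro x
    by_cases hx : x ∈ U
    · have e1 : ∑ i : Fin n, fderiv ℝ a x (bv i) * fderiv ℝ (en u) x (bv i) =
          fderiv ℝ (en u) x (vec (fderiv ℝ a x)) := (apply_vec _ _).symm
      have e2 : ∑ i : Fin n, fderiv ℝ a x (bv i) * ⟪fderiv ℝ u x (bv i), lap u x⟫ =
          ⟪fderiv ℝ u x (vec (fderiv ℝ a x)), lap u x⟫ := by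
        rw [vec_eq_sum, map_sum, sum_inner]
        refine Finset.sum_congr rfl fun i _ => ?_
        rw [map_smul, real_inner_smul_left]
      show ∑ i : Fin n, fderiv ℝ a x (bv i) * ⟪fderiv ℝ u x (bv i), lap u x⟫ -
        (1 / 2) * ∑ i : Fin n, fderiv ℝ a x (bv i) * fderiv ℝ (en u) x (bv i) ≤
        Real.sqrt (gsq a x) * (Real.sqrt (en u x) * (Real.sqrt (hsq u x) + ‖lap u x‖))
      rw [e1, e2, sqrt_gsq]
      have h3 := (abs_le.1 (en_deriv_le hU hu hx (vec (fderiv ℝ a x)))).1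
      have h4 : ⟪fderiv ℝ u x (vec (fderiv ℝ a x)), lap u x⟫ ≤
          ‖vec (fderiv ℝ a x)‖ * Real.sqrt (en u x) * ‖lap u x‖ := by
        refine (real_inner_le_norm _ _).trans ?_
        exact mul_le_mul_of_nonneg_right (norm_app_le _ _) (norm_nonneg _)
      nlinarith
    · show ∑ i : Fin n, fderiv ℝ a x (bv i) * ⟪fderiv ℝ u x (bv i), lap u x⟫ -
        (1 / 2) * ∑ i : Fin n, fderiv ℝ a x (bv i) * fderiv ℝ (en u) x (bv i) ≤
        Real.sqrt (gsq a x) * (Real.sqrt (en u x) * (Real.sqrt (hsq u x) + ‖lap u x‖))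
      have e1 : gsq a x = 0 := by
        unfold gsq nsq
        rw [hdx x hx]
        simp
      rw [hdx x hx, e1]
      simp

end Pool.Agent.H72.AX
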